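import Pool.Agent.H89.KD.Stmts

/-!
# Project KD: EXO, extension of operators from the dense set of the classes of `-L u + c`
-/

set_option autoImplicit false

open MeasureTheory Set Filter Topology
open scoped ContDiff

namespace Pool.Agent.H89.KD

open Pool.Agent.H84 Pool.Agent.H84.Sym Pool.Agent.H84.Sym.P2x Pool.Agent.H19.KL
open Pool.Agent.H73.KG Pool.Agent.H20.KH

theorem exo_thm (E : Type) [NormedAddCommGroup E] [InnerProductSpace ℝ E]
    [FiniteDimensional ℝ E] [MeasurableSpace E] [BorelSpace E] (hM : MEMStmt E)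
    (hT : TSFStmt E) (hD : DNSStmt E) : EXOStmt E := by
  intro U t hU ι _ b F C hC hG hadd hsmul hb
  obtain ⟨-, mAdd, mSmul, -, mNorm, -⟩ := hM U t hU
  obtain ⟨t1, t2, t3⟩ := hT U t hU ι b
  have hz : Tst (0 : E → ℝ) := by
    have h0 : ContDiff ℝ ∞ (0 : E → ℝ) := contDiff_const
    exact ⟨h0, HasCompactSupport.zero⟩
  let S : Submodule ℝ ((E → ℝ) × ℝ) :=
    { carrier := {p | Tst p.1}
      add_mem' := fun {p q} hp hq => (t2 p.1 q.1 hp hq).1
      zero_mem' := hz
      smul_mem' := fun c p hp => (t3 c p.1 hp).1 }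
  have hS : ∀ p : S, Tst p.1.1 := fun p => p.2
  let e : S →ₗ[ℝ] Lp ℝ 2 (mu U) :=
    { toFun := fun p => tL U (XU b U p.1.1 p.1.2)
      map_add' := by
        intro p q
        have h1 := (t1 p.1.1 (hS p)).2.2.1 p.1.2
        have h2 := (t1 q.1.1 (hS q)).2.2.1 q.1.2
        rw [← mAdd _ _ h1 h2]
        congr 1
        funext x
        have h3 := congrFun (t2 p.1.1 q.1.1 (hS p) (hS q)).2.1 x
        have h4 : LO b U (p.1.1 + q.1.1) x = LO b U p.1.1 x + LO b U q.1.1 x := h3
        simp only [XU, Submodule.coe_add, Prod.fst_add, Prod.snd_add]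
        rw [h4]; ring
      map_smul' := by
        intro c p
        have h1 := (t1 p.1.1 (hS p)).2.2.1 p.1.2
        simp only [RingHom.id_apply]
        rw [← mSmul c _ h1]
        congr 1
        funext x
        have h3 := congrFun (t3 c p.1.1 (hS p)).2.1 x
        have h4 : LO b U (c • p.1.1) x = c * LO b U p.1.1 x := h3
        simp only [XU, Submodule.coe_smul, Prod.smul_fst, Prod.smul_snd, smul_eq_mul]
        rw [h4]; ring }
  let f : S →ₗ[ℝ] Lp ℝ 2 (mu U) :=
    { toFun := fun p => tL U (F p.1.1)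
      map_add' := by
        intro p q
        rw [← mAdd _ _ (hG _ (hS p)) (hG _ (hS q))]
        congr 1
        exact hadd p.1.1 q.1.1 (hS p) (hS q)
      map_smul' := by
        intro c p
        simp only [RingHom.id_apply]
        rw [← mSmul c _ (hG _ (hS p))]
        congr 1
        exact hsmul c p.1.1 (hS p) }
  have hdense : DenseRange e := by
    rw [Metric.denseRange_iff]
    intro h r hr
    obtain ⟨u, c, hu, hle⟩ := hD U t hU ι b h (r / 2) (by positivity)
    refine ⟨⟨(u, c), hu⟩, ?_⟩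
    rw [dist_eq_norm]
    exact lt_of_le_of_lt hle (by linarith)
  have hbound : ∀ p : S, ‖f p‖ ≤ Real.sqrt C * ‖e p‖ := by
    intro p
    have h1 : ‖f p‖ ^ 2 = ∫ x, (F p.1.1 x) ^ 2 ∂(mu U) := mNorm _ (hG _ (hS p))
    have h2 : ‖e p‖ ^ 2 = ∫ x, (XU b U p.1.1 p.1.2 x) ^ 2 ∂(mu U) :=
      mNorm _ ((t1 p.1.1 (hS p)).2.2.1 p.1.2)
    have h3 := hb p.1.1 p.1.2 (hS p)
    rw [← h1, ← h2] at h3
    have h4 : ‖f p‖ ^ 2 ≤ (Real.sqrt C * ‖e p‖) ^ 2 := by
      rw [mul_pow, Real.sq_sqrt hC]; exact h3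
    exact le_of_sq_le_sq h4 (by positivity)
  refine ⟨f.extendOfNorm e, ?_⟩
  intro u hu c
  exact LinearMap.extendOfNorm_eq hdense ⟨Real.sqrt C, hbound⟩ ⟨(u, c), hu⟩

end Pool.Agent.H89.KD
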